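import Mathlib

/-!
# Binomial coefficients without small prime factors: several smooth numbers in the interval
-/

set_option autoImplicit false

open Finset

namespace Pool.Agent.Defi

/-- The product of the numbers `n - j`, `j < k`, with `d` of them left out is divisible by a product
of `d + 1` factorials. -/
lemma exists_blocks (n : ℕ) : ∀ (d k : ℕ) (I : Finset ℕ), I ⊆ range k → I.card = d →
    ∃ b : ℕ → ℕ, ∑ l ∈ range (d + 1), b l = k - d ∧
      (∏ l ∈ range (d + 1), (b l).factorial) ∣ ∏ j ∈ range k \ I, (n - j) := by
  intro d
  induction d with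
  | zero =>
    intro k I _ hI
    rw [card_eq_zero] at hI
    subst hI
    refine ⟨fun _ => k, by simp, ?_⟩
    rw [sdiff_empty]
    simp only [zero_add, prod_range_one]
    rw [← Nat.descFactorial_eq_prod_range]
    exact Nat.factorial_dvd_descFactorial n k
  | succ d ih =>
    intro k I hIk hI
    have hne : I.Nonempty := by
      rw [← card_pos, hI]; omega
    set i := I.max' hne with hi
    have hiI : i ∈ I := I.max'_mem hne
    have hik : i < k := mem_range.1 (hIk hiI)
    have hsub : I.erase i ⊆ range i := by
      intro j hj
      rw [mem_erase] at hj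
      rw [mem_range]
      exact lt_of_le_of_ne (I.le_max' j hj.2) hj.1
    have hcard : (I.erase i).card = d := by
      rw [card_erase_of_mem hiI, hI]; omega
    obtain ⟨b, hb1, hb2⟩ := ih i (I.erase i) hsub hcard
    have hdi : d ≤ i := by
      have := card_le_card hsub
      rwa [hcard, card_range] at this
    refine ⟨fun l => if l < d + 1 then b l else k - 1 - i, ?_, ?_⟩
    · rw [sum_range_succ]
      have h1 : ∑ x ∈ range (d + 1), (if x < d + 1 then b x else k - 1 - i) =
          ∑ x ∈ range (d + 1), b x := by
        refine sum_congr rfl fun x hx => ?_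
        rw [if_pos (mem_range.1 hx)]
      rw [h1, hb1, if_neg (lt_irrefl _)]
      omega
    · rw [prod_range_succ]
      have h1 : ∏ x ∈ range (d + 1), ((if x < d + 1 then b x else k - 1 - i).factorial) =
          ∏ x ∈ range (d + 1), (b x).factorial := by
        refine prod_congr rfl fun x hx => ?_
        rw [if_pos (mem_range.1 hx)]
      have h1' : ((if d + 1 < d + 1 then b (d + 1) else k - 1 - i).factorial) =
          (k - 1 - i).factorial := by
        rw [if_neg (lt_irrefl _)]
      simp only [h1', h1]
      have hsplit : range k \ I = (range i \ I.erase i) ∪ Ioo i k := by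
        ext j
        simp only [mem_sdiff, mem_range, mem_union, mem_erase, mem_Ioo]
        constructor
        · rintro ⟨h2, h3⟩
          rcases lt_trichotomy j i with h | h | h
          · left
            exact ⟨h, fun h4 => h3 h4.2⟩
          · subst h; exact absurd hiI h3
          · right; exact ⟨h, h2⟩
        · rintro (⟨h2, h3⟩ | ⟨h2, h3⟩)
          · refine ⟨by omega, fun h4 => h3 ⟨by omega, h4⟩⟩
          · refine ⟨h3, fun h4 => ?_⟩
            have := I.le_max' j h4
            omega
      have hdis : Disjoint (range i \ I.erase i) (Ioo i k) := by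
        rw [disjoint_left]
        intro j h2 h3
        rw [mem_sdiff, mem_range] at h2
        rw [mem_Ioo] at h3
        omega
      rw [hsplit, prod_union hdis]
      refine mul_dvd_mul hb2 ?_
      have h2 : ∏ j ∈ Ioo i k, (n - j) = (n - (i + 1)).descFactorial (k - 1 - i) := by
        rw [Nat.descFactorial_eq_prod_range]
        refine prod_nbij' (fun j => j - (i + 1)) (fun j => j + (i + 1)) ?_ ?_ ?_ ?_ ?_
        · intro j hj
          rw [mem_Ioo] at hj
          rw [mem_range]
          omega
        · intro j hj
          rw [mem_range] at hj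
          rw [mem_Ioo]
          omega
        · intro j hj
          rw [mem_Ioo] at hj
          show j - (i + 1) + (i + 1) = j
          omega
        · intro j _
          show j + (i + 1) - (i + 1) = j
          omega
        · intro j hj
          rw [mem_Ioo] at hj
          show n - j = n - (i + 1) - (j - (i + 1))
          omega
      rw [h2]
      exact Nat.factorial_dvd_descFactorial _ _

/-- A multinomial coefficient with `m` parts and sum `N` is at most `m ^ N`. -/
lemma multinomial_le (m N : ℕ) (b : ℕ → ℕ) (hb : ∑ l ∈ range m, b l = N) :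
    Nat.multinomial (range m) b ≤ m ^ N := by
  have h := Finset.sum_pow_eq_sum_piAntidiag (range m) (fun _ => (1 : ℕ)) N
  simp only [sum_const, card_range, smul_eq_mul, mul_one, one_pow, prod_const_one] at h
  rw [h]
  set b' : ℕ → ℕ := fun l => if l ∈ range m then b l else 0 with hb'
  have h1 : Nat.multinomial (range m) b = Nat.multinomial (range m) b' := by
    apply Nat.multinomial_congr
    intro a ha
    rw [hb']
    simp only
    rw [if_pos ha]
  rw [h1]
  refine single_le_sum (f := fun k => Nat.multinomial (range m) k) (fun _ _ => Nat.zero_le _) ?_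
  rw [mem_piAntidiag]
  constructor
  · rw [← hb]
    refine sum_congr rfl fun x hx => ?_
    rw [hb']
    simp only
    rw [if_pos hx]
  · intro a ha
    rw [hb'] at ha
    simp only at ha
    by_contra hcon
    rw [if_neg hcon] at ha
    exact ha rfl

/-- Let all prime factors of `C(n,k)` be larger than `k`, and let the numbers `n - i`, `i ∈ I`, have
only prime factors at most `k`. Then their product is at most `k (k-1) ⋯ (k-d+1) (d+1)^(k-d)`, where
`d` is the number of elements of `I`. -/
theorem prod_le (n k d : ℕ) (hn : 2 * k ≤ n)
    (hgood : ∀ p : ℕ, p.Prime → p ∣ n.choose k → k < p) (I : Finset ℕ) (hI : I ⊆ range k)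
    (hd : I.card = d)
    (hsm : ∀ i ∈ I, ∀ p : ℕ, p.Prime → p ∣ n - i → p ≤ k) :
    ∏ i ∈ I, (n - i) ≤ k.descFactorial d * (d + 1) ^ (k - d) := by
  obtain ⟨b, hb1, hb2⟩ := exists_blocks n d k I hI hd
  have hdk : d ≤ k := by
    have := card_le_card hI
    rwa [hd, card_range] at this
  -- the product of all numbers
  have hall : (∏ i ∈ I, (n - i)) * ∏ j ∈ range k \ I, (n - j) = k.factorial * n.choose k := by
    rw [mul_comm, prod_sdiff hI, ← Nat.descFactorial_eq_prod_range,
      Nat.descFactorial_eq_factorial_mul_choose]
  set M := Nat.multinomial (range (d + 1)) b with hM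
  have hspec := Nat.multinomial_spec (range (d + 1)) b
  rw [hb1] at hspec
  have hfact : k.factorial = k.descFactorial d * (k - d).factorial := by
    rw [mul_comm]
    exact (Nat.factorial_mul_descFactorial hdk).symm
  obtain ⟨q, hq⟩ := hb2
  set B := ∏ l ∈ range (d + 1), (b l).factorial with hB
  have hBpos : 0 < B := prod_pos fun l _ => Nat.factorial_pos _
  have hkey : (∏ i ∈ I, (n - i)) * q = k.descFactorial d * M * n.choose k := by
    apply Nat.eq_of_mul_eq_mul_left hBpos
    calc B * ((∏ i ∈ I, (n - i)) * q) = (∏ i ∈ I, (n - i)) * (B * q) := by ring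
      _ = k.factorial * n.choose k := by rw [← hq, hall]
      _ = k.descFactorial d * (B * M) * n.choose k := by rw [hfact, hspec]
      _ = B * (k.descFactorial d * M * n.choose k) := by ring
  have hcop : Nat.Coprime (∏ i ∈ I, (n - i)) (n.choose k) := by
    apply Nat.Coprime.prod_left
    intro i hi
    apply Nat.coprime_of_dvd
    intro p hp h1 h2
    have h3 := hsm i hi p hp h1
    have h4 := hgood p hp h2
    omega
  have hdvd : (∏ i ∈ I, (n - i)) ∣ k.descFactorial d * M :=
    hcop.dvd_of_dvd_mul_right (Dvd.intro _ hkey)
  have hpos : 0 < k.descFactorial d * M := by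
    have h1 : 0 < k.descFactorial d := Nat.descFactorial_pos.2 hdk
    have h2 : 0 < M := Nat.multinomial_pos _ _
    positivity
  refine (Nat.le_of_dvd hpos hdvd).trans ?_
  exact Nat.mul_le_mul_left _ (multinomial_le (d + 1) (k - d) b hb1)

end Pool.Agent.Defi
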