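import Mathlib
import Pool.Agent.Lib.Defi.Basic

/-!
# Binomial coefficients without small prime factors: the lcm bound
-/

set_option autoImplicit false

open Finset

namespace Pool.Agent.Defi

/-- In `C(n,k)` without prime factors `≤ k` no `n - i`, `i < k`, is divisible by a power `> k` of a
prime `≤ k`. -/
lemma pow_le_of_dvd (n k : ℕ) (hn : 2 * k ≤ n)
    (hgood : ∀ p : ℕ, p.Prime → p ∣ n.choose k → k < p) (i : ℕ) (hi : i < k) (p b : ℕ)
    (hp : p.Prime) (hpk : p ≤ k) (hd : p ^ b ∣ n - i) : p ^ b ≤ k := by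
  by_contra hcon
  push Not at hcon
  have hkn : k ≤ n := by omega
  have hnot : ¬ p ∣ n.choose k := fun h => absurd (hgood p hp h) (by omega)
  have h0 : (n.choose k).factorization p = 0 := Nat.factorization_eq_zero_of_not_dvd hnot
  -- Kummer: no carries
  have hb : Nat.log p n < max (b + 1) (Nat.log p n + 1) := by
    exact lt_of_lt_of_le (Nat.lt_succ_self _) (le_max_right _ _)
  have hK := Nat.factorization_choose hp hkn hb
  rw [h0] at hK
  have hK' := (card_eq_zero.1 hK.symm)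
  have hb0 : b ≠ 0 := by
    rintro rfl
    rw [pow_zero] at hcon
    omega
  have hmem : b ∉ {i ∈ Ico 1 (max (b + 1) (Nat.log p n + 1)) | p ^ i ≤ k % p ^ i + (n - k) % p ^ i} := by
    rw [hK']
    exact notMem_empty b
  rw [mem_filter, not_and] at hmem
  have h1 := hmem (by
    rw [mem_Ico]
    exact ⟨by omega, lt_of_lt_of_le (Nat.lt_succ_self b) (le_max_left _ _)⟩)
  push Not at h1
  rw [Nat.mod_eq_of_lt hcon] at h1
  -- now `n - i` is a multiple of `p ^ b`
  obtain ⟨q, hq⟩ := hd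
  have h3 := Nat.div_add_mod (n - k) (p ^ b)
  obtain ⟨r, t, hr, ht⟩ : ∃ r t : ℕ, r = (n - k) % p ^ b ∧ t = (n - k) / p ^ b :=
    ⟨_, _, rfl, rfl⟩
  rw [← hr, ← ht] at h3
  rw [← hr] at h1
  have h4 : p ^ b * q = p ^ b * t + r + (k - i) := by
    rw [← hq, h3]
    omega
  have h5 : t < q := by
    by_contra h6
    push Not at h6
    have := Nat.mul_le_mul_left (p ^ b) h6
    omega
  have h6 : p ^ b * (t + 1) ≤ p ^ b * q := Nat.mul_le_mul_left _ h5
  rw [mul_add, mul_one] at h6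
  omega

/-- A smooth number `n - i` divides `lcm (1, …, k)`. -/
lemma dvd_lcm (n k : ℕ) (hn : 2 * k ≤ n)
    (hgood : ∀ p : ℕ, p.Prime → p ∣ n.choose k → k < p) (i : ℕ) (hi : i < k)
    (hsm : ∀ p : ℕ, p.Prime → p ∣ n - i → p ≤ k) : n - i ∣ (Icc 1 k).lcm id := by
  have hne : n - i ≠ 0 := by omega
  have hL : (Icc 1 k).lcm id ≠ 0 := by
    rw [Finset.lcm_ne_zero_iff]
    intro x hx
    rw [mem_Icc] at hx
    show x ≠ 0
    omega
  rw [← Nat.factorization_le_iff_dvd hne hL]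
  intro p
  by_cases hp : p.Prime
  · by_cases hpd : p ∣ n - i
    · have h1 := pow_le_of_dvd n k hn hgood i hi p ((n - i).factorization p) hp (hsm p hp hpd)
        (Nat.ordProj_dvd _ _)
      have h2 : p ^ (n - i).factorization p ∣ (Icc 1 k).lcm id := by
        have h3 := Finset.dvd_lcm (f := (id : ℕ → ℕ))
          (mem_Icc.2 ⟨Nat.pos_of_ne_zero (pow_ne_zero _ hp.ne_zero), h1⟩)
        exact h3
      exact (hp.pow_dvd_iff_le_factorization hL).1 h2
    · rw [Nat.factorization_eq_zero_of_not_dvd hpd]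
      exact Nat.zero_le _
  · rw [Nat.factorization_eq_zero_of_not_prime _ hp]
    exact Nat.zero_le _

lemma gcd_prod_dvd (x : ℕ) (I : Finset ℕ) (m : ℕ → ℕ) :
    Nat.gcd x (∏ a ∈ I, m a) ∣ ∏ a ∈ I, Nat.gcd x (m a) := by
  classical
  induction I using Finset.induction_on with
  | empty => simp
  | insert a s ha ih =>
    rw [prod_insert ha, prod_insert ha]
    exact (Nat.gcd_mul_right_dvd_mul_gcd x _ _).trans (mul_dvd_mul_left _ ih)

/-- Numbers with small pairwise greatest common divisors. -/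
lemma prod_dvd_lcm_mul (m : ℕ → ℕ) (B : ℕ) : ∀ I : Finset ℕ,
    (∀ a ∈ I, ∀ b ∈ I, a ≠ b → Nat.gcd (m a) (m b) ≤ B) → (∀ a ∈ I, 0 < m a) →
    ∃ D, 0 < D ∧ D ≤ B ^ (I.card.choose 2) ∧ ∏ a ∈ I, m a ∣ I.lcm m * D := by
  classical
  intro I
  induction I using Finset.induction_on with
  | empty =>
    intro _ _
    exact ⟨1, one_pos, by simp, by simp⟩
  | insert x s hx ih =>
    intro hB hpos
    obtain ⟨D, hD0, hD1, hD2⟩ := ih
      (fun a ha b hb hab => hB a (mem_insert_of_mem ha) b (mem_insert_of_mem hb) hab)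
      (fun a ha => hpos a (mem_insert_of_mem ha))
    refine ⟨Nat.gcd (m x) (s.lcm m) * D, ?_, ?_, ?_⟩
    · exact Nat.mul_pos (Nat.gcd_pos_of_pos_left _ (hpos x (mem_insert_self _ _))) hD0
    · rw [card_insert_of_notMem hx, Nat.choose_succ_succ' s.card 1, Nat.choose_one_right, pow_add]
      refine Nat.mul_le_mul ?_ hD1
      have h1 : Nat.gcd (m x) (s.lcm m) ∣ ∏ a ∈ s, Nat.gcd (m x) (m a) := by
        refine (Nat.gcd_dvd_gcd_of_dvd_right _ ?_).trans (gcd_prod_dvd (m x) s m)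
        exact Finset.lcm_dvd fun a ha => dvd_prod_of_mem m ha
      have h2 : 0 < ∏ a ∈ s, Nat.gcd (m x) (m a) :=
        prod_pos fun a _ => Nat.gcd_pos_of_pos_left _ (hpos x (mem_insert_self _ _))
      refine (Nat.le_of_dvd h2 h1).trans ?_
      refine prod_le_pow_card s _ B fun a ha => ?_
      exact hB x (mem_insert_self _ _) a (mem_insert_of_mem ha) fun h => hx (h ▸ ha)
    · rw [prod_insert hx, Finset.lcm_insert]
      calc m x * ∏ a ∈ s, m a ∣ m x * (s.lcm m * D) := mul_dvd_mul_left _ hD2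
        _ = (m x * s.lcm m) * D := by ring
        _ = (Nat.gcd (m x) (s.lcm m) * Nat.lcm (m x) (s.lcm m)) * D := by
            rw [Nat.gcd_mul_lcm]
        _ = Nat.lcm (m x) (s.lcm m) * (Nat.gcd (m x) (s.lcm m) * D) := by ring
        _ = _ := rfl

/-- The product of `d` smooth numbers `n - i` is at most `lcm (1, …, k) (k-1)^(d(d-1)/2)`. -/
theorem prod_le_lcm (n k : ℕ) (hn : 2 * k ≤ n)
    (hgood : ∀ p : ℕ, p.Prime → p ∣ n.choose k → k < p) (I : Finset ℕ) (hI : I ⊆ range k)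
    (hsm : ∀ i ∈ I, ∀ p : ℕ, p.Prime → p ∣ n - i → p ≤ k) :
    ∏ i ∈ I, (n - i) ≤ (Icc 1 k).lcm id * (k - 1) ^ (I.card.choose 2) := by
  have hg : ∀ a ∈ I, ∀ b ∈ I, a < b → Nat.gcd (n - a) (n - b) ≤ k - 1 := by
    intro a ha b hb hab
    have ha' := mem_range.1 (hI ha)
    have hb' := mem_range.1 (hI hb)
    have h1 : Nat.gcd (n - a) (n - b) ∣ b - a := by
      have := Nat.dvd_sub (Nat.gcd_dvd_left (n - a) (n - b)) (Nat.gcd_dvd_right (n - a) (n - b))
      have h2 : n - a - (n - b) = b - a := by omega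
      rwa [h2] at this
    have h3 := Nat.le_of_dvd (by omega) h1
    omega
  obtain ⟨D, hD0, hD1, hD2⟩ := prod_dvd_lcm_mul (fun i => n - i) (k - 1) I (by
    intro a ha b hb hab
    rcases lt_or_gt_of_ne hab with h | h
    · exact hg a ha b hb h
    · show Nat.gcd (n - a) (n - b) ≤ k - 1
      rw [Nat.gcd_comm]
      exact hg b hb a ha h) (by
    intro a ha
    have ha' := mem_range.1 (hI ha)
    show 0 < n - a
    omega)
  have hL : I.lcm (fun i => n - i) ∣ (Icc 1 k).lcm id :=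
    Finset.lcm_dvd fun i hi => dvd_lcm n k hn hgood i (mem_range.1 (hI hi)) (hsm i hi)
  have hL0 : 0 < (Icc 1 k).lcm id := by
    apply Nat.pos_of_ne_zero
    rw [Finset.lcm_ne_zero_iff]
    intro x hx
    rw [mem_Icc] at hx
    show x ≠ 0
    omega
  have h1 : ∏ i ∈ I, (n - i) ∣ (Icc 1 k).lcm id * D := hD2.trans (mul_dvd_mul_right hL _)
  exact (Nat.le_of_dvd (Nat.mul_pos hL0 hD0) h1).trans (Nat.mul_le_mul_left _ hD1)

end Pool.Agent.Defi
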